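import Pool.Agent.R279.CS.Topo

/-!
# A Clifford spectrum that is a one-manifold

There are three Hermitian `8 × 8` matrices whose Clifford spectrum is the union of two disjoint
(linked) circles of radius `√5` in `ℝ³`; in particular it is a one-manifold. The same set is
obtained from every nontrivial complex algebra containing three elements that satisfy the Clifford
relations, in particular from every triple of matrices `γ` satisfying them.
-/

namespace Pool.Agent.Results.MP_782c7c_an.LinkedCircles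

open Pool.Agent.R279.CS

universe u

theorem kron_iff (A : Fin 3 → Matrix (Fin 8) (Fin 8) ℂ) (r : ℕ)
    (γ : Fin 3 → Matrix (Fin r) (Fin r) ℂ) (lam : Fin 3 → ℝ) :
    lam ∈ spectrumIn γ A ↔
      (∑ j, Matrix.kroneckerMap (fun a b : ℂ => a * b)
        (A j - (lam j : ℂ) • (1 : Matrix (Fin 8) (Fin 8) ℂ)) (γ j)).det = 0 := by
  have h1 : Matrix.compRingEquiv (Fin 8) (Fin r) ℂ (localizer γ A lam)
      = ∑ j, Matrix.kroneckerMap (fun a b : ℂ => a * b)
        (A j - (lam j : ℂ) • (1 : Matrix (Fin 8) (Fin 8) ℂ)) (γ j) := by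
    ext ⟨i, s⟩ ⟨k, t⟩
    have : Matrix.compRingEquiv (Fin 8) (Fin r) ℂ (localizer γ A lam) (i, s) (k, t)
        = localizer γ A lam i k s t := rfl
    rw [this, localizer, Matrix.sum_apply, Matrix.sum_apply, Matrix.sum_apply]
    simp only [Matrix.map_apply, Matrix.smul_apply, smul_eq_mul, Matrix.kroneckerMap_apply]
  rw [← h1, spectrumIn, Set.mem_setOf_eq]
  have h2 : IsUnit (localizer γ A lam) ↔
      IsUnit (Matrix.compRingEquiv (Fin 8) (Fin r) ℂ (localizer γ A lam)) := by
    constructor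
    · intro h
      exact h.map (Matrix.compRingEquiv (Fin 8) (Fin r) ℂ)
    · intro h
      have := h.map (Matrix.compRingEquiv (Fin 8) (Fin r) ℂ).symm
      simpa using this
  rw [h2, Matrix.isUnit_iff_isUnit_det, isUnit_iff_ne_zero, not_not]

theorem result :
    ∃ A : Fin 3 → Matrix (Fin 8) (Fin 8) ℂ, (∀ j, (A j).IsHermitian) ∧
      IsOneManifold ↥(cliffordSpectrum A) ∧
      cliffordSpectrum A = {v | v 2 = 0 ∧ v 0 ^ 2 + v 1 ^ 2 = 5} ∪
        {v | v 1 = 0 ∧ (v 0 - 2) ^ 2 + v 2 ^ 2 = 5} ∧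
      (∀ (R : Type u) [Ring R] [Algebra ℂ R] [Nontrivial R] (e : Fin 3 → R),
        IsCliffordFamily e → spectrumIn e A = cliffordSpectrum A) ∧
      (∀ (r : ℕ) (γ : Fin 3 → Matrix (Fin (r + 1)) (Fin (r + 1)) ℂ), IsCliffordFamily γ →
        ∀ lam : Fin 3 → ℝ, lam ∈ cliffordSpectrum A ↔
          (∑ j, Matrix.kroneckerMap (fun a b : ℂ => a * b)
            (A j - (lam j : ℂ) • (1 : Matrix (Fin 8) (Fin 8) ℂ)) (γ j)).det = 0) := by
  have key : cliffordSpectrum bigA = circleA ∪ circleB := spectrumIn_bigA (gen_isCliffordFamily 3)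
  refine ⟨bigA, bigA_isHermitian, ?_, key, ?_, ?_⟩
  · rw [key]
    exact isOneManifold_circles
  · intro R _ _ _ e he
    rw [key, spectrumIn_bigA he]
  · intro r γ hγ lam
    rw [← kron_iff, spectrumIn_bigA hγ, key]

end Pool.Agent.Results.MP_782c7c_an.LinkedCircles
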